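import Mathlib

/-!
# Global dimension and bidimension of a Banach algebra

All spaces are complex Banach spaces and live in `Type`.
-/

noncomputable section

namespace Pool.Agent.Lib.BF3S

/-- `β : E × F → G` is a bounded bilinear map. -/
def IsBil {E F G : Type} [NormedAddCommGroup E] [NormedSpace ℂ E] [NormedAddCommGroup F]
    [NormedSpace ℂ F] [NormedAddCommGroup G] [NormedSpace ℂ G] (β : E → F → G) : Prop :=
  IsBoundedBilinearMap ℂ fun p : E × F => β p.1 p.2

/-- The Banach space `T`, with the bounded bilinear map `τ (x, y) = x ⊗ y`, is the projective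
tensor product `E ⊗̂ F` (universal property): every bounded bilinear map `β` from `E × F` to a
Banach space `G` is `f ∘ τ` for exactly one bounded linear map `f : T → G`. -/
def IsTen {E F T : Type} [NormedAddCommGroup E] [NormedSpace ℂ E] [NormedAddCommGroup F]
    [NormedSpace ℂ F] [NormedAddCommGroup T] [NormedSpace ℂ T] [CompleteSpace T]
    (τ : E → F → T) : Prop :=
  IsBil τ ∧ ∀ (G : Type) [NormedAddCommGroup G] [NormedSpace ℂ G] [CompleteSpace G]
    (β : E → F → G), IsBil β → ∃! f : T → G, IsBoundedLinearMap ℂ f ∧ ∀ x y, f (τ x y) = β x y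

/-- `m` is a bounded bilinear, unital, associative (left) action of the Banach algebra `B` on `X`. -/
def IsAct {B X : Type} [NormedRing B] [NormedAlgebra ℂ B] [NormedAddCommGroup X]
    [NormedSpace ℂ X] (m : B → X → X) : Prop :=
  IsBil m ∧ (∀ x, m 1 x = x) ∧ ∀ a b x, m (a * b) x = m a (m b x)

/-- a unital left Banach module over the unital Banach algebra `B` -/
structure Mod (B : Type) [NormedRing B] [NormedAlgebra ℂ B] where
  /-- the underlying Banach space -/
  X : Type
  g : NormedAddCommGroup X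
  s : NormedSpace ℂ X
  c : CompleteSpace X
  /-- the action -/
  m : B → X → X
  h : IsAct m

attribute [instance] Mod.g Mod.s Mod.c

section

variable {B : Type} [NormedRing B] [NormedAlgebra ℂ B]

/-- `f : X → Y` is a bounded linear map -/
def Bl (X Y : Mod B) (f : X.X → Y.X) : Prop := IsBoundedLinearMap ℂ f

/-- `f : X → Y` is a morphism of Banach modules -/
def Hom (X Y : Mod B) (f : X.X → Y.X) : Prop := Bl X Y f ∧ ∀ b x, f (X.m b x) = Y.m b (f x)

/-- `F`, with `τ (b, x) = b ⊗ x`, is the Banach module `B ⊗̂ X`, `a (b ⊗ x) = ab ⊗ x`. -/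
def IsFree (X F : Mod B) (τ : B → X.X → F.X) : Prop :=
  IsTen τ ∧ ∀ a b x, F.m a (τ b x) = τ (a * b) x

/-- The Banach module `X` is (relatively) projective: the action map `π : B ⊗̂ X → X`,
`b ⊗ x ↦ bx`, has a right inverse `ρ` that is a morphism. -/
def Projective (X : Mod B) : Prop :=
  ∃ (F : Mod B) (τ : B → X.X → F.X) (π : F.X → X.X) (ρ : X.X → F.X), IsFree X F τ ∧
    Hom F X π ∧ (∀ b x, π (τ b x) = X.m b x) ∧ Hom X F ρ ∧ ∀ x, π (ρ x) = x

/-- `X` has an admissible resolution `0 ← X ← P 0 ← ... ← P n ← 0` by projective modules: the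
complex has a contracting homotopy `σ`, `s i` of bounded linear maps. -/
def Res (X : Mod B) (n : ℕ) : Prop :=
  ∃ (P : ℕ → Mod B) (ε : (P 0).X → X.X) (d : ∀ i, (P (i + 1)).X → (P i).X)
    (σ : X.X → (P 0).X) (s : ∀ i, (P i).X → (P (i + 1)).X),
    (∀ i, Projective (P i)) ∧ (∀ i, n < i → Subsingleton (P i).X) ∧
    Hom (P 0) X ε ∧ (∀ i, Hom (P (i + 1)) (P i) (d i)) ∧
    (∀ x, ε (d 0 x) = 0) ∧ (∀ i x, d i (d (i + 1) x) = 0) ∧
    Bl X (P 0) σ ∧ (∀ i, Bl (P i) (P (i + 1)) (s i)) ∧
    (∀ x, ε (σ x) = x) ∧ (∀ x, σ (ε x) + d 0 (s 0 x) = x) ∧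
    ∀ i x, s i (d i x) + d (i + 1) (s (i + 1) x) = x

/-- the homological dimension of a Banach module: the least length of such a resolution, and `∞`
if there is none -/
def dh (X : Mod B) : ℕ∞ := sInf {m : ℕ∞ | ∃ n : ℕ, Res X n ∧ m = n}

/-- `U`, with `τ (a, b) = a ⊗ b`, is the Banach algebra `B ⊗̂ Bᵒᵖ`:
`(a ⊗ b) (c ⊗ d) = ac ⊗ db`. -/
def IsEnv {U : Type} [NormedRing U] [NormedAlgebra ℂ U] [CompleteSpace U] (τ : B → B → U) :
    Prop :=
  IsTen τ ∧ (∀ a b c d, τ a b * τ c d = τ (a * c) (d * b)) ∧ τ 1 1 = 1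

/-- `m` is the action of `B ⊗̂ Bᵒᵖ` on `B` given by `(a ⊗ b) x = a x b`. -/
def IsBim {U : Type} [NormedRing U] [NormedAlgebra ℂ U] (τ : B → B → U) (m : U → B → B) : Prop :=
  IsAct m ∧ ∀ a b x, m (τ a b) x = a * x * b

end

section

variable (A : Type) [NonUnitalNormedCommRing A] [NormedSpace ℂ A] [IsScalarTower ℂ A A]
  [SMulCommClass ℂ A A]

/-- the unitization `A₊ = ℂ ⊕ A` with the norm `|λ| + ‖a‖` -/
abbrev Up : Type := WithLp 1 (Unitization ℂ A)

/-- the global dimension of `A`: the supremum of the homological dimensions of all left Banach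
`A`-modules, that is, of all unital left Banach `A₊`-modules -/
def dg : ℕ∞ := ⨆ X : Mod (Up A), dh X

/-- `db A = n`: the homological dimension of `A₊` as a Banach `A`-bimodule, that is, as a left
module over the Banach algebra `U = A₊ ⊗̂ A₊ᵒᵖ`, is equal to `n` -/
def DbEq [CompleteSpace A] (n : ℕ∞) : Prop :=
  ∃ (U : Type) (_ : NormedRing U) (_ : NormedAlgebra ℂ U) (_ : CompleteSpace U)
    (τ : Up A → Up A → U) (m : U → Up A → Up A) (h : IsBim τ m),
    IsEnv τ ∧ dh (⟨Up A, inferInstance, inferInstance, inferInstance, m, h.1⟩ : Mod U) = n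

end

/-- A commutative Banach algebra is semisimple iff its characters separate its points. -/
def Semisimple (A : Type) [NonUnitalNormedCommRing A] [NormedSpace ℂ A] : Prop :=
  ∀ a : A, (∀ φ : A →ₙₐ[ℂ] ℂ, φ a = 0) → a = 0

/-- The commutative normed ring `A` with a complex vector space structure is a semisimple complex
Banach algebra with `dg A = 3` and `db A = 3`. -/
def DimThree (A : Type) [NonUnitalNormedCommRing A] [NormedSpace ℂ A] : Prop :=
  ∃ (_ : IsScalarTower ℂ A A) (_ : SMulCommClass ℂ A A) (_ : CompleteSpace A),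
    Semisimple A ∧ dg A = 3 ∧ DbEq A 3

end Pool.Agent.Lib.BF3S
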