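import Mathlib
import Pool.Agent.Lib.BF3S.Spec
import Pool.Agent.Lib.BF3.Final

/-!
# The dimensions of `BF3` and those of `BF3S` agree
-/

noncomputable section

namespace Pool.Agent.Lib.BF3S

open Pool.Agent.Lib.BF3 (BMod PT PTA pt ptL lift lift_pt ta taL liftA liftA_ta freeM actMap)

/-! ### Bounded bilinear maps -/

section

variable {E F G : Type} [NormedAddCommGroup E] [NormedSpace ℂ E] [NormedAddCommGroup F]
  [NormedSpace ℂ F] [NormedAddCommGroup G] [NormedSpace ℂ G]

/-- a bounded bilinear map as an iterated bounded linear map -/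
def IsBil.clm {β : E → F → G} (h : IsBil β) : E →L[ℂ] F →L[ℂ] G :=
  IsBoundedBilinearMap.toContinuousLinearMap h

theorem IsBil.clm_apply {β : E → F → G} (h : IsBil β) (x : E) (y : F) : h.clm x y = β x y := rfl

theorem isBil_clm (β : E →L[ℂ] F →L[ℂ] G) : IsBil fun x y => β x y := β.isBoundedBilinearMap

/-- a bounded linear map as a continuous linear map -/
def toL {f : E → F} (h : IsBoundedLinearMap ℂ f) : E →L[ℂ] F := h.toContinuousLinearMap

theorem toL_apply {f : E → F} (h : IsBoundedLinearMap ℂ f) (x : E) : toL h x = f x := rfl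

/-- the projective tensor product of `BF3` has the universal property -/
theorem isTen_pt : IsTen (fun (x : E) (y : F) => (pt x y : PT E F)) := by
  refine ⟨(isBil_clm (ptL E F) :), fun G _ _ _ β hβ => ⟨fun t => lift hβ.clm t, ⟨?_, ?_⟩, ?_⟩⟩
  · exact (lift hβ.clm).isBoundedLinearMap
  · intro x y
    change lift hβ.clm (pt x y) = _
    rw [lift_pt]
    rfl
  · rintro f ⟨hf, hf'⟩
    funext t
    refine BF3.PT.apply_eq_of (f := toL hf) (g := lift hβ.clm) (fun x y => ?_) t
    rw [lift_pt, toL_apply, hf']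
    rfl

end

/-- the projective tensor product of two algebras has the universal property -/
theorem isTen_ta {E F : Type} [NormedCommRing E] [NormedAlgebra ℂ E] [NormedCommRing F]
    [NormedAlgebra ℂ F] : IsTen (fun (x : E) (y : F) => (ta x y : PTA E F)) := by
  refine ⟨(isBil_clm (taL E F) :), fun G _ _ _ β hβ => ⟨fun t => liftA hβ.clm t, ⟨?_, ?_⟩, ?_⟩⟩
  · exact (liftA hβ.clm).isBoundedLinearMap
  · intro x y
    change liftA hβ.clm (ta x y) = _
    rw [liftA_ta]
    rfl
  · rintro f ⟨hf, hf'⟩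
    funext t
    refine BF3.PTA.apply_eq_of (f := toL hf) (g := liftA hβ.clm) (fun x y => ?_) t
    rw [liftA_ta, toL_apply, hf']
    rfl

/-! ### Modules -/

section

variable {B : Type} [NormedCommRing B] [NormedAlgebra ℂ B]

theorem isAct_act (X : BMod B) : IsAct fun (b : B) (x : X) => X.act b x :=
  ⟨isBil_clm X.act, X.act_one, X.act_mul⟩

/-- the module `X` -/
def toS (X : BMod B) : Mod B where
  X := X.carrier
  g := X.grp
  s := X.nsp
  c := X.cpl
  m := fun b x => X.act b x
  h := isAct_act X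

/-- the module `X` -/
def ofS (X : Mod B) : BMod B where
  carrier := X.X
  act := X.h.1.clm
  act_one := X.h.2.1
  act_mul := X.h.2.2

theorem toS_ofS (X : Mod B) : toS (ofS X) = X := rfl

theorem hom_toS {X Y : BMod B} (f : X →L[ℂ] Y) (hf : BF3.IsHom X Y f) :
    Hom (toS X) (toS Y) (fun x => f x) := ⟨f.isBoundedLinearMap, hf⟩

theorem projective_toS {X : BMod B} (h : BF3.Projective X) : Projective (toS X) := by
  obtain ⟨ρ, hρ, hρ'⟩ := h
  refine ⟨toS (freeM B X), fun b x => (pt b x : PT B X), fun t => actMap X t, fun x => ρ x,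
    ⟨isTen_pt, fun a b x => ?_⟩, ?_, fun b x => ?_, ?_, hρ'⟩
  · exact BF3.freeM_act_pt X a b x
  · refine ⟨(actMap X).isBoundedLinearMap, fun b t => ?_⟩
    refine BF3.PT.apply_eq_of (f := (actMap X).comp ((freeM B X).act b))
      (g := (X.act b).comp (actMap X)) (fun c x => ?_) t
    change actMap X ((freeM B X).act b (pt c x : PT B X)) = X.act b (actMap X (pt c x))
    rw [BF3.freeM_act_pt, BF3.actMap_pt, BF3.actMap_pt, X.act_mul]
  · exact BF3.actMap_pt X b x
  · exact ⟨ρ.isBoundedLinearMap, hρ⟩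

theorem projective_ofS {X : BMod B} (h : Projective (toS X)) : BF3.Projective X := by
  obtain ⟨F, τ, π, ρ, ⟨⟨hτ, hu⟩, hm⟩, ⟨hπ, hπm⟩, hπ', ⟨hρ, hρm⟩, hπρ⟩ := h
  obtain ⟨f, ⟨hf, hf'⟩, -⟩ := @hu (freeM B X).carrier (freeM B X).grp (freeM B X).nsp (freeM B X).cpl
    (fun b x => (pt b x : PT B X)) isTen_pt.1
  have h1 : ∀ t, actMap X (f t) = π t := by
    intro t
    have e := (@hu X.carrier X.grp X.nsp X.cpl (fun b x => X.act b x) (isAct_act X).1).unique
      (y₁ := fun t => actMap X (f t)) (y₂ := π)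
      ⟨((actMap X).comp (toL hf)).isBoundedLinearMap, fun b x => by
        change actMap X (f (τ b x)) = _
        rw [hf', BF3.actMap_pt]⟩ ⟨hπ, fun b x => hπ' b x⟩
    exact congrFun e t
  have h2 : ∀ a t, f (F.m a t) = (freeM B X).act a (f t) := by
    intro a t
    have hb : IsBil fun (b : B) (x : X) => (pt (a * b) x : PT B X) :=
      (isBil_clm ((ptL B X).comp (ContinuousLinearMap.mul ℂ B a)) :)
    have e := (@hu (freeM B X).carrier (freeM B X).grp (freeM B X).nsp (freeM B X).cpl
      (fun b x => (pt (a * b) x : PT B X)) hb).unique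
      (y₁ := fun t => f (F.m a t)) (y₂ := fun t => (freeM B X).act a (f t))
      ⟨((toL hf).comp (F.h.1.clm a)).isBoundedLinearMap, fun b x => by
        change f (F.m a (τ b x)) = _
        rw [hm, hf']⟩
      ⟨(((freeM B X).act a).comp (toL hf)).isBoundedLinearMap, fun b x => by
        change (freeM B X).act a (f (τ b x)) = _
        rw [hf']
        exact BF3.freeM_act_pt X a b x⟩
    exact congrFun e t
  refine ⟨(toL hf).comp (toL (E := X) (F := F.X) hρ), fun b x => ?_, fun x => ?_⟩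
  · change f (ρ (X.act b x)) = (freeM B X).act b (f (ρ x))
    rw [← h2]
    exact congrArg f (hρm b x)
  · change actMap X (f (ρ x)) = x
    rw [h1]
    exact hπρ x

theorem res_toS {X : BMod B} {n : ℕ} (R : BF3.Res X n) : Res (toS X) n := by
  refine ⟨fun i => toS (R.P i), fun x => R.ε x, fun i x => R.d i x, fun x => R.σ x,
    fun i x => R.s i x, fun i => projective_toS (R.proj i), fun i hi => ⟨fun x y => ?_⟩,
    ⟨R.ε.isBoundedLinearMap, R.hε⟩, fun i => ⟨(R.d i).isBoundedLinearMap, R.hd i⟩, R.εd, R.dd,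
    R.σ.isBoundedLinearMap, fun i => (R.s i).isBoundedLinearMap, R.hσ, R.h0, R.hs⟩
  exact (R.zero i hi x).trans (R.zero i hi y).symm

theorem res_ofS {X : BMod B} {n : ℕ} (R : Res (toS X) n) : Nonempty (BF3.Res X n) := by
  obtain ⟨P, ε, d, σ, s, h1, h2, h3, h4, h5, h6, h7, h8, h9, h10, h11⟩ := R
  exact ⟨{
    P := fun i => ofS (P i)
    proj := fun i => projective_ofS (h1 i)
    zero := fun i hi x => (h2 i hi).elim x 0
    ε := toL (E := (P 0).X) (F := X.carrier) h3.1
    d := fun i => toL (h4 i).1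
    hε := h3.2
    hd := fun i => (h4 i).2
    εd := h5
    dd := h6
    σ := toL (E := X.carrier) (F := (P 0).X) h7
    s := fun i => toL (h8 i)
    hσ := h9
    h0 := h10
    hs := h11 }⟩

theorem dh_toS (X : BMod B) : dh (toS X) = BF3.dh X := by
  unfold dh BF3.dh
  congr 1
  ext m
  constructor
  · rintro ⟨n, h, e⟩
    exact ⟨n, res_ofS h, e⟩
  · rintro ⟨n, ⟨h⟩, e⟩
    exact ⟨n, res_toS h, e⟩

theorem iSup_dh : (⨆ X : Mod B, dh X) = ⨆ X : BMod B, BF3.dh X := by
  apply le_antisymm
  · refine iSup_le fun X => ?_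
    rw [← toS_ofS X, dh_toS]
    exact le_iSup (fun X : BMod B => BF3.dh X) (ofS X)
  · refine iSup_le fun X => ?_
    rw [← dh_toS]
    exact le_iSup (fun X : Mod B => dh X) (toS X)

end

section

variable (A : Type) [NonUnitalNormedCommRing A] [NormedSpace ℂ A] [IsScalarTower ℂ A A]
  [SMulCommClass ℂ A A]

theorem dg_eq : dg A = BF3.dg A := iSup_dh (B := BF3.Up A)

theorem dbEq [CompleteSpace A] : DbEq A (BF3.db A) := by
  have hact : IsAct fun (u : PTA (BF3.Up A) (BF3.Up A)) (x : BF3.Up A) =>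
      ((BF3.selfBimod (BF3.Up A)).act u x : BF3.Up A) := isAct_act (BF3.selfBimod (BF3.Up A))
  refine ⟨PTA (BF3.Up A) (BF3.Up A), inferInstance, inferInstance, inferInstance,
    fun a b => ta a b, fun u x => (BF3.selfBimod (BF3.Up A)).act u x, ⟨hact, ?_⟩,
    ⟨isTen_ta, ?_, ?_⟩, ?_⟩
  · intro a b x
    change liftA (BF3.mulMul (BF3.Up A)) (ta a b) x = _
    rw [liftA_ta]
    change a * (x * b) = a * x * b
    rw [mul_assoc]
  · intro a b c d
    rw [BF3.ta_mul_ta, mul_comm b d]
  · exact BF3.ta_one_one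
  · exact dh_toS (BF3.selfBimod (BF3.Up A))

end

theorem semisimple_iff (A : Type) [NonUnitalNormedCommRing A] [NormedSpace ℂ A]
    [IsScalarTower ℂ A A] [SMulCommClass ℂ A A] : Semisimple A ↔ BF3.Semisimple A := Iff.rfl

end Pool.Agent.Lib.BF3S
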